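import Pool.Agent.V5helper94.Kol.Final2

/-!
# A smoothing of a rational surface singularity whose canonical algebra is not finitely generated

The ring `B` is attached to fourteen planes `Y + p_i x = q_i z` through the origin of affine
three-space: `B` consists of the rational functions which are regular off the planes and along the
exceptional divisor over each line which lies in at least two of the planes. The fourteen planes
are chosen in such a way that on the cone over the cuspidal cubic `(z, x, Y) = (1 + 2 s, s, s ^ 3)`
each of them cuts out three of twelve given lines, and the twelve lines are not in special position
otherwise, so that a divisor of degree zero on the cuspidal cubic is not torsion.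
The fibre of `z` is the surface with coordinate ring `ℂ[x, y][x ^ (e i) / (y + p_i x)]`.
-/

namespace Pool.Agent.Results.MP_20b407_ag.KollarCanonicalAlgebra

open Pool.Agent.V5helper94.Kol.Stmt

/-- **Counterexample to the finite generation of the canonical algebra of one-parameter smoothings
of rational surface singularities.** There are a finitely generated normal domain `B` over `ℂ` of
transcendence degree three, and `t : B`, such that `t : Spec B → 𝔸¹` is flat and smooth away from
`t = 0`, the fibre over `0` is a normal surface with only rational singularities, and a maximal
ideal `p` of `B` containing `t` such that the canonical algebra of the local ring `A = B_p` is not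
finitely generated over `A`, even after a faithfully flat extension of `A`. -/
theorem result :
    ∃ (B : Type) (_ : CommRing B) (_ : Algebra ℂ B) (t : B),
      IsOneParameterSmoothing B t ∧ IsRationalSurf (B ⧸ Ideal.span {t}) ∧
      ∃ (p : Ideal B) (_ : p.IsMaximal), t ∈ p ∧
      ∃ (A : Type) (_ : CommRing A) (_ : Algebra B A) (_ : IsLocalization.AtPrime A p)
        (K : Type) (_ : Field K) (_ : Algebra A K) (_ : IsFractionRing A K)
        (_ : Algebra ℂ A) (_ : IsScalarTower ℂ B A) (_ : Algebra ℂ K) (_ : IsScalarTower ℂ A K),
        ∀ ω₀ : ThreeForms K, ω₀ ≠ 0 → NotFG (canonicalRing A ω₀) :=
  Pool.Agent.V5helper94.Kol.final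

end Pool.Agent.Results.MP_20b407_ag.KollarCanonicalAlgebra
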